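import Mathlib

/-!
# MP_be01c1_co, Question 1: the answer is no

For `q = 3`, `n = 5`, `d = 3` and `t = 0` the vectors `11100` and `11110` both give the least
eigenvalue `-4` of the Gilbert graph, but the two hyperplane sections are not isomorphic: an edge
of the first one lies in seven triangles, every edge of the second one in at most five.
-/

open Finset

namespace Pool.Agent.Results.MP_be01c1_co.TernarySections

/-- The vector space `F_q^n`. -/
abbrev Vec (q n : ℕ) : Type := Fin n → ZMod q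

/-- Hamming weight. -/
def wt {q n : ℕ} (u : Vec q n) : ℕ := (univ.filter fun i => u i ≠ 0).card

/-- The bilinear form `⟨u, v⟩`. -/
def dot {q n : ℕ} (u v : Vec q n) : ZMod q := ∑ i, u i * v i

/-- The induced subgraph of the Gilbert graph on the set `V`. -/
def gilbert {q n : ℕ} (d : ℕ) (V : Set (Vec q n)) : SimpleGraph V where
  Adj x y := 1 ≤ wt (x.1 - y.1) ∧ wt (x.1 - y.1) ≤ d - 1
  symm := ⟨fun x y h => by
    have : wt (y.1 - x.1) = wt (x.1 - y.1) := by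
      unfold wt
      congr 1
      ext i
      simp only [mem_filter, mem_univ, true_and, Pi.sub_apply, ne_eq, sub_eq_zero]
      exact not_congr eq_comm
    rw [this]; exact h⟩
  loopless := ⟨fun x h => by simp [wt] at h⟩

open Classical in
/-- The eigenvalue `λ_V(v)`, the sum of `z^⟨u,v⟩` over the connection set, `z = exp (2πi/q)`. -/
noncomputable def lam {q n : ℕ} [NeZero q] (d : ℕ) (V : Set (Vec q n)) (v : Vec q n) : ℂ :=
  ∑ u ∈ univ.filter (fun u : Vec q n => u ∈ V ∧ 1 ≤ wt u ∧ wt u ≤ d - 1),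
    Complex.exp (2 * Real.pi * Complex.I / q) ^ (dot u v).val

/-- `λ_V(v)` is the least eigenvalue (the numbers `λ_V(v)` are real and form the whole
spectrum). -/
def IsMin {q n : ℕ} [NeZero q] (d : ℕ) (V : Set (Vec q n)) (v : Vec q n) : Prop :=
  ∀ v' : Vec q n, (lam d V v).re ≤ (lam d V v').re

/-- The integer `∑ v_i q^(n-i)` used to order the vectors. -/
def value {q n : ℕ} (v : Vec q n) : ℕ := ∑ i : Fin n, (v i).val * q ^ (n - 1 - (i : ℕ))

open Classical in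
/-- The smallest vector giving the least eigenvalue. -/
noncomputable def smallest {q n : ℕ} [NeZero q] (d : ℕ) (V : Set (Vec q n)) : Vec q n :=
  Classical.epsilon fun v => IsMin d V v ∧ ∀ v', IsMin d V v' → value v ≤ value v'

/-- The recursion `V_0 = F_q^n`, `V_{t+1} = {u ∈ V_t : ⟨u, v^(t)⟩ = 0}`. -/
noncomputable def Vt (q n d : ℕ) [NeZero q] : ℕ → Set (Vec q n)
  | 0 => Set.univ
  | t + 1 => {u | u ∈ Vt q n d t ∧ dot u (smallest d (Vt q n d t)) = 0}

/-- The hyperplane section `H_t(v)`. -/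
def section' {q n : ℕ} (V : Set (Vec q n)) (v : Vec q n) : Set (Vec q n) :=
  {u | u ∈ V ∧ dot u v = 0}

/-! ### computations with 5-tuples -/

/-- 5-tuples -/
abbrev Tup : Type := ZMod 3 × ZMod 3 × ZMod 3 × ZMod 3 × ZMod 3

/-- weight of a tuple -/
def wT (u : Tup) : ℕ :=
  (if u.1 = 0 then 0 else 1) + (if u.2.1 = 0 then 0 else 1) + (if u.2.2.1 = 0 then 0 else 1) +
    (if u.2.2.2.1 = 0 then 0 else 1) + (if u.2.2.2.2 = 0 then 0 else 1)

/-- product of tuples -/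
def dT (u v : Tup) : ZMod 3 :=
  u.1 * v.1 + u.2.1 * v.2.1 + u.2.2.1 * v.2.2.1 + u.2.2.2.1 * v.2.2.2.1 + u.2.2.2.2 * v.2.2.2.2

/-- the vectors of weight `1` and `2` -/
def T5 : List Tup := [
  (0, 0, 0, 0, 1), (0, 0, 0, 0, 2), (0, 0, 0, 1, 0), (0, 0, 0, 1, 1), (0, 0, 0, 1, 2),
  (0, 0, 0, 2, 0), (0, 0, 0, 2, 1), (0, 0, 0, 2, 2), (0, 0, 1, 0, 0), (0, 0, 1, 0, 1),
  (0, 0, 1, 0, 2), (0, 0, 1, 1, 0), (0, 0, 1, 2, 0), (0, 0, 2, 0, 0), (0, 0, 2, 0, 1),
  (0, 0, 2, 0, 2), (0, 0, 2, 1, 0), (0, 0, 2, 2, 0), (0, 1, 0, 0, 0), (0, 1, 0, 0, 1),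
  (0, 1, 0, 0, 2), (0, 1, 0, 1, 0), (0, 1, 0, 2, 0), (0, 1, 1, 0, 0), (0, 1, 2, 0, 0),
  (0, 2, 0, 0, 0), (0, 2, 0, 0, 1), (0, 2, 0, 0, 2), (0, 2, 0, 1, 0), (0, 2, 0, 2, 0),
  (0, 2, 1, 0, 0), (0, 2, 2, 0, 0), (1, 0, 0, 0, 0), (1, 0, 0, 0, 1), (1, 0, 0, 0, 2),
  (1, 0, 0, 1, 0), (1, 0, 0, 2, 0), (1, 0, 1, 0, 0), (1, 0, 2, 0, 0), (1, 1, 0, 0, 0),
  (1, 2, 0, 0, 0), (2, 0, 0, 0, 0), (2, 0, 0, 0, 1), (2, 0, 0, 0, 2), (2, 0, 0, 1, 0),
  (2, 0, 0, 2, 0), (2, 0, 1, 0, 0), (2, 0, 2, 0, 0), (2, 1, 0, 0, 0), (2, 2, 0, 0, 0)]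

/-- the tuple of a vector -/
def tup (u : Vec 3 5) : Tup := (u 0, u 1, u 2, u 3, u 4)

lemma tup_inj : Function.Injective tup := by
  intro u v h
  simp only [tup, Prod.mk.injEq] at h
  funext i
  fin_cases i
  · exact h.1
  · exact h.2.1
  · exact h.2.2.1
  · exact h.2.2.2.1
  · exact h.2.2.2.2

lemma wt_tup (u : Vec 3 5) : wt u = wT (tup u) := by
  unfold wt wT tup
  rw [card_filter, Fin.sum_univ_five]
  simp only [ne_eq, ite_not]

lemma dot_tup (u v : Vec 3 5) : dot u v = dT (tup u) (tup v) := by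
  unfold dot dT tup
  rw [Fin.sum_univ_five]

set_option maxRecDepth 100000 in
lemma T5_nodup : T5.Nodup := by decide

set_option maxRecDepth 100000 in
lemma T5_mem' : ∀ a b c d e : ZMod 3, ((a, b, c, d, e) : Tup) ∈ T5 ↔
    1 ≤ wT (a, b, c, d, e) ∧ wT (a, b, c, d, e) ≤ 2 := by decide

lemma T5_mem (t : Tup) : t ∈ T5 ↔ 1 ≤ wT t ∧ wT t ≤ 2 := by
  obtain ⟨a, b, c, d, e⟩ := t
  exact T5_mem' a b c d e

set_option maxRecDepth 100000 in
lemma count_ge : ∀ a b c d e : ZMod 3,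
    14 ≤ (T5.filter fun u => dT u (a, b, c, d, e) = 0).length := by decide

/-- the two vectors -/
def v1 : Vec 3 5 := ![1, 1, 1, 0, 0]

/-- the two vectors -/
def v2 : Vec 3 5 := ![1, 1, 1, 1, 0]

set_option maxRecDepth 100000 in
lemma count1 : (T5.filter fun u => dT u (tup v1) = 0).length = 14 := by decide

set_option maxRecDepth 100000 in
lemma count2 : (T5.filter fun u => dT u (tup v2) = 0).length = 14 := by decide

set_option maxRecDepth 100000 in
lemma few : ∀ s ∈ T5, dT s (tup v2) = 0 →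
    (T5.filter fun b => dT b (tup v2) = 0 ∧ b - s ∈ T5).length ≤ 5 := by decide

open Classical in
lemma card_list (v : Vec 3 5) :
    ((univ.filter (fun u : Vec 3 5 => u ∈ (Set.univ : Set (Vec 3 5)) ∧ 1 ≤ wt u ∧
      wt u ≤ 3 - 1)).filter fun u => dot u v = 0).card =
      (T5.filter fun u => dT u (tup v) = 0).length := by
  rw [← List.toFinset_card_of_nodup (T5_nodup.filter _), ← card_image_of_injective _ tup_inj]
  congr 1
  ext t
  simp only [mem_image, mem_filter, mem_univ, true_and, Set.mem_univ, List.mem_toFinset,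
    List.mem_filter, decide_eq_true_eq, T5_mem]
  constructor
  · rintro ⟨u, ⟨⟨h1, h2⟩, h3⟩, rfl⟩
    rw [wt_tup] at h1 h2
    rw [dot_tup] at h3
    exact ⟨⟨h1, h2⟩, h3⟩
  · rintro ⟨⟨h1, h2⟩, h3⟩
    obtain ⟨a, b, c, d, e⟩ := t
    have ht : tup ![a, b, c, d, e] = (a, b, c, d, e) := rfl
    refine ⟨![a, b, c, d, e], ⟨⟨?_, ?_⟩, ?_⟩, ht⟩
    · rw [wt_tup, ht]; exact h1
    · rw [wt_tup, ht]; exact h2
    · rw [dot_tup, ht]; exact h3

open Classical in
lemma card_all :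
    (univ.filter (fun u : Vec 3 5 => u ∈ (Set.univ : Set (Vec 3 5)) ∧ 1 ≤ wt u ∧
      wt u ≤ 3 - 1)).card = 50 := by
  have h := card_list 0
  have e1 : ∀ u : Vec 3 5, dot u 0 = 0 := fun u => by simp [dot]
  have e2 : ∀ u : Tup, dT u (tup 0) = 0 := fun u => by simp [dT, tup]
  simp only [e1, e2, filter_true, decide_true, List.filter_true] at h
  rw [h]
  rfl

lemma re_pow (k : ZMod 3) : (Complex.exp (2 * Real.pi * Complex.I / (3 : ℕ)) ^ k.val).re =
    if k = 0 then 1 else -(1 / 2) := by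
  have h1 : ∀ m : ℕ, (Complex.exp (2 * Real.pi * Complex.I / (3 : ℕ)) ^ m).re =
      Real.cos (m * (2 * Real.pi / 3)) := by
    intro m
    rw [← Complex.exp_nat_mul]
    have : (m : ℂ) * (2 * Real.pi * Complex.I / (3 : ℕ)) =
        ((m * (2 * Real.pi / 3) : ℝ) : ℂ) * Complex.I := by
      push_cast
      ring
    rw [this, Complex.exp_ofReal_mul_I_re]
  rw [h1]
  have hk : k = 0 ∨ k = 1 ∨ k = 2 := by revert k; decide
  have hc : Real.cos (2 * Real.pi / 3) = -(1 / 2) := by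
    rw [show 2 * Real.pi / 3 = Real.pi - Real.pi / 3 by ring, Real.cos_pi_sub,
      Real.cos_pi_div_three]
  rcases hk with rfl | rfl | rfl
  · have : (0 : ZMod 3).val = 0 := rfl
    rw [this, if_pos rfl]
    simp
  · have : (1 : ZMod 3).val = 1 := rfl
    rw [this, if_neg (by decide)]
    rw [Nat.cast_one, one_mul, hc]
  · have : (2 : ZMod 3).val = 2 := rfl
    rw [this, if_neg (by decide)]
    rw [show ((2 : ℕ) : ℝ) * (2 * Real.pi / 3) = 2 * Real.pi - 2 * Real.pi / 3 by push_cast; ring,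
      Real.cos_two_pi_sub, hc]

lemma lam_re (v : Vec 3 5) : (lam 3 (Set.univ : Set (Vec 3 5)) v).re =
    3 / 2 * ((T5.filter fun u => dT u (tup v) = 0).length : ℝ) - 25 := by
  classical
  unfold lam
  rw [Complex.re_sum, ← card_list v]
  have h1 : ∀ u ∈ univ.filter (fun u : Vec 3 5 => u ∈ (Set.univ : Set (Vec 3 5)) ∧ 1 ≤ wt u ∧
      wt u ≤ 3 - 1), (Complex.exp (2 * Real.pi * Complex.I / (3 : ℕ)) ^ (dot u v).val).re =
      3 / 2 * (if dot u v = 0 then 1 else 0) - 1 / 2 := by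
    intro u _
    rw [re_pow]
    split_ifs <;> norm_num
  refine (sum_congr (by ext u; simp only [mem_filter]) h1).trans ?_
  rw [sum_sub_distrib, ← mul_sum, sum_boole, sum_const, card_all]
  norm_num

lemma min1 : IsMin 3 (Set.univ : Set (Vec 3 5)) v1 := by
  intro v'
  rw [lam_re, lam_re, count1]
  have h := count_ge (v' 0) (v' 1) (v' 2) (v' 3) (v' 4)
  have h' : (14 : ℝ) ≤ ((T5.filter fun u => dT u (tup v') = 0).length : ℝ) := by exact_mod_cast h
  push_cast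
  linarith

lemma min2 : IsMin 3 (Set.univ : Set (Vec 3 5)) v2 := by
  intro v'
  rw [lam_re, lam_re, count2]
  have h := count_ge (v' 0) (v' 1) (v' 2) (v' 3) (v' 4)
  have h' : (14 : ℝ) ≤ ((T5.filter fun u => dT u (tup v') = 0).length : ℝ) := by exact_mod_cast h
  push_cast
  linarith

/-- the common neighbours of `00000` and `00010` in the first section -/
def zz : Fin 6 → Vec 3 5 := ![![0, 0, 0, 2, 0], ![0, 0, 0, 0, 1], ![0, 0, 0, 0, 2],
  ![0, 0, 0, 1, 1], ![0, 0, 0, 1, 2], ![0, 0, 0, 2, 1]]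

lemma zz_ok : ∀ i, dot (zz i) v1 = 0 ∧ (1 ≤ wt (0 - zz i) ∧ wt (0 - zz i) ≤ 2) ∧
    (1 ≤ wt (![0, 0, 0, 1, 0] - zz i) ∧ wt (![0, 0, 0, 1, 0] - zz i) ≤ 2) := by decide

lemma zz_inj : Function.Injective zz := by decide

lemma dot_sub {q n : ℕ} (u u' v : Vec q n) : dot (u - u') v = dot u v - dot u' v := by
  unfold dot
  rw [← sum_sub_distrib]
  exact sum_congr rfl fun i _ => by rw [Pi.sub_apply]; ring

lemma wt_swap {q n : ℕ} (u v : Vec q n) : wt (u - v) = wt (v - u) := by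
  unfold wt
  congr 1
  ext i
  simp only [mem_filter, mem_univ, true_and, Pi.sub_apply, ne_eq, sub_eq_zero]
  exact not_congr eq_comm

lemma not_iso : ¬ Nonempty (gilbert 3 (section' (Set.univ : Set (Vec 3 5)) v1) ≃g
    gilbert 3 (section' (Set.univ : Set (Vec 3 5)) v2)) := by
  rintro ⟨φ⟩
  have h0 : (0 : Vec 3 5) ∈ section' Set.univ v1 := ⟨trivial, by simp [dot]⟩
  have hy : (![0, 0, 0, 1, 0] : Vec 3 5) ∈ section' Set.univ v1 := ⟨trivial, by decide⟩
  have hz : ∀ i, zz i ∈ section' (Set.univ : Set (Vec 3 5)) v1 := fun i => ⟨trivial, (zz_ok i).1⟩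
  set X := φ ⟨0, h0⟩ with hX
  set Y := φ ⟨_, hy⟩ with hY
  set Z : Fin 6 → section' (Set.univ : Set (Vec 3 5)) v2 := fun i => φ ⟨zz i, hz i⟩ with hZ
  have aXY : (gilbert 3 (section' (Set.univ : Set (Vec 3 5)) v2)).Adj X Y := by
    rw [hX, hY, φ.map_adj_iff]
    change 1 ≤ wt ((0 : Vec 3 5) - ![0, 0, 0, 1, 0]) ∧ wt ((0 : Vec 3 5) - ![0, 0, 0, 1, 0]) ≤ 2
    decide
  have aXZ : ∀ i, (gilbert 3 (section' (Set.univ : Set (Vec 3 5)) v2)).Adj X (Z i) := by
    intro i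
    rw [hX, hZ, φ.map_adj_iff]
    exact (zz_ok i).2.1
  have aYZ : ∀ i, (gilbert 3 (section' (Set.univ : Set (Vec 3 5)) v2)).Adj Y (Z i) := by
    intro i
    rw [hY, hZ, φ.map_adj_iff]
    exact (zz_ok i).2.2
  have hdX : dot X.1 v2 = 0 := X.2.2
  have hdY : dot Y.1 v2 = 0 := Y.2.2
  have hdZ : ∀ i, dot (Z i).1 v2 = 0 := fun i => (Z i).2.2
  -- the elements of the connection set
  have hs : tup (Y.1 - X.1) ∈ T5 := by
    rw [T5_mem, ← wt_tup, wt_swap]
    exact aXY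
  have hs0 : dT (tup (Y.1 - X.1)) (tup v2) = 0 := by
    rw [← dot_tup, dot_sub, hdX, hdY, sub_zero]
  have hfew := few _ hs hs0
  have htsub : ∀ u w : Vec 3 5, tup (u - w) = tup u - tup w := fun u w => rfl
  have hmem : ∀ i, tup ((Z i).1 - X.1) ∈
      (T5.filter fun b => dT b (tup v2) = 0 ∧ b - tup (Y.1 - X.1) ∈ T5) := by
    intro i
    rw [List.mem_filter]
    refine ⟨?_, ?_⟩
    · rw [T5_mem, ← wt_tup, wt_swap]
      exact aXZ i
    · rw [decide_eq_true_eq]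
      refine ⟨?_, ?_⟩
      · rw [← dot_tup, dot_sub, hdX, hdZ, sub_zero]
      · rw [← htsub, sub_sub_sub_cancel_right, T5_mem, ← wt_tup, wt_swap]
        exact aYZ i
  have hinj : Function.Injective fun i => tup ((Z i).1 - X.1) := by
    intro i j hij
    have h1 := tup_inj hij
    have h2 : (Z i).1 = (Z j).1 := sub_left_injective h1
    have h3 : Z i = Z j := Subtype.ext h2
    have h4 := φ.injective h3
    exact zz_inj (congrArg Subtype.val h4)
  have hcard : 6 ≤ (T5.filter fun b => dT b (tup v2) = 0 ∧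
      b - tup (Y.1 - X.1) ∈ T5).toFinset.card := by
    have h5 : (univ.image fun i => tup ((Z i).1 - X.1)) ⊆
        (T5.filter fun b => dT b (tup v2) = 0 ∧ b - tup (Y.1 - X.1) ∈ T5).toFinset := by
      intro t ht
      obtain ⟨i, -, rfl⟩ := mem_image.1 ht
      exact List.mem_toFinset.2 (hmem i)
    have h6 := card_le_card h5
    rw [card_image_of_injective _ hinj] at h6
    simpa using h6
  have := List.toFinset_card_le (T5.filter fun b => dT b (tup v2) = 0 ∧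
      b - tup (Y.1 - X.1) ∈ T5)
  omega

lemma edge_ok : 1 ≤ wt ((0 : Vec 3 5) - ![1, 0, 0, 0, 0]) ∧
    wt ((0 : Vec 3 5) - ![1, 0, 0, 0, 0]) ≤ 3 - 1 := by decide

lemma edge_ex : ∃ x y, (gilbert 3 (Vt 3 5 3 0)).Adj x y :=
  ⟨⟨0, trivial⟩, ⟨![1, 0, 0, 0, 0], trivial⟩, edge_ok⟩

/-- **Theorem.** The statement of Question 1 is false: it fails for `q = 3`, `n = 5`, `d = 3`,
`t = 0`. -/
theorem result :
    (IsMin 3 (Vt 3 5 3 0) v1 ∧ IsMin 3 (Vt 3 5 3 0) v2 ∧
      ¬ Nonempty (gilbert 3 (section' (Vt 3 5 3 0) v1) ≃g gilbert 3 (section' (Vt 3 5 3 0) v2))) ∧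
    ¬ ∀ (q n d : ℕ) [Fact q.Prime] [NeZero q], 1 ≤ n → 2 ≤ d → ∀ t,
      (∃ x y, (gilbert d (Vt q n d t)).Adj x y) → ∀ v v' : Vec q n,
      IsMin d (Vt q n d t) v → IsMin d (Vt q n d t) v' →
      Nonempty (gilbert d (section' (Vt q n d t) v) ≃g gilbert d (section' (Vt q n d t) v')) := by
  refine ⟨⟨min1, min2, not_iso⟩, fun h => ?_⟩
  have h3 : Fact (Nat.Prime 3) := ⟨by norm_num⟩
  exact not_iso (@h 3 5 3 h3 _ (by norm_num) (by norm_num) 0 edge_ex v1 v2 min1 min2)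

end Pool.Agent.Results.MP_be01c1_co.TernarySections
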